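import Pool.Agent.H37.CNE.Stmts

set_option autoImplicit false

namespace Pool.CND

open Matrix

namespace Slw44

variable {F : Type} [Field F]

theorem ext2 {g h : SL F} (h00 : g.1 0 0 = h.1 0 0) (h01 : g.1 0 1 = h.1 0 1)
    (h10 : g.1 1 0 = h.1 1 0) (h11 : g.1 1 1 = h.1 1 1) : g = h := by
  apply Subtype.ext
  ext i j
  fin_cases i <;> fin_cases j <;> assumption

theorem det2 (g : SL F) : g.1 0 0 * g.1 1 1 - g.1 0 1 * g.1 1 0 = 1 := by
  have := g.2
  rwa [Matrix.det_fin_two] at this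

theorem mul00 (g h : SL F) : (g * h).1 0 0 = g.1 0 0 * h.1 0 0 + g.1 0 1 * h.1 1 0 := by
  show (g.1 * h.1) 0 0 = _
  rw [Matrix.mul_apply, Fin.sum_univ_two]

theorem mul01 (g h : SL F) : (g * h).1 0 1 = g.1 0 0 * h.1 0 1 + g.1 0 1 * h.1 1 1 := by
  show (g.1 * h.1) 0 1 = _
  rw [Matrix.mul_apply, Fin.sum_univ_two]

theorem mul10 (g h : SL F) : (g * h).1 1 0 = g.1 1 0 * h.1 0 0 + g.1 1 1 * h.1 1 0 := by
  show (g.1 * h.1) 1 0 = _
  rw [Matrix.mul_apply, Fin.sum_univ_two]

theorem mul11 (g h : SL F) : (g * h).1 1 1 = g.1 1 0 * h.1 0 1 + g.1 1 1 * h.1 1 1 := by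
  show (g.1 * h.1) 1 1 = _
  rw [Matrix.mul_apply, Fin.sum_univ_two]

theorem one00 : (1 : SL F).1 0 0 = 1 := rfl
theorem one01 : (1 : SL F).1 0 1 = 0 := rfl
theorem one10 : (1 : SL F).1 1 0 = 0 := rfl
theorem one11 : (1 : SL F).1 1 1 = 1 := rfl

/-- powers of a triangular matrix with equal diagonal entries -/
theorem pow_tri (g : SL F) (a : F) (h0 : g.1 0 0 = a) (h1 : g.1 1 1 = a) (h10 : g.1 1 0 = 0)
    (k : ℕ) : (g ^ k).1 0 0 = a ^ k ∧ (g ^ k).1 1 1 = a ^ k ∧ (g ^ k).1 1 0 = 0 ∧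
      a * (g ^ k).1 0 1 = k * (a ^ k * g.1 0 1) := by
  induction k with
  | zero => simp [one00, one01, one10, one11]
  | succ k ih =>
    obtain ⟨i0, i1, i2, i3⟩ := ih
    rw [pow_succ, mul00, mul01, mul10, mul11, i0, i1, i2, h0, h1, h10]
    refine ⟨by ring, by ring, by ring, ?_⟩
    calc a * (a ^ k * g.1 0 1 + (g ^ k).1 0 1 * a)
        = a ^ (k + 1) * g.1 0 1 + (a * (g ^ k).1 0 1) * a := by ring
      _ = _ := by rw [i3]; push_cast; ring

theorem exists_col (v : Fin 2 → F) (hv : v ≠ 0) : ∃ h : SL F, h.1 0 0 = v 0 ∧ h.1 1 0 = v 1 := by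
  by_cases h0 : v 0 = 0
  · have h1 : v 1 ≠ 0 := by
      intro h1
      apply hv
      funext i
      fin_cases i
      · exact h0
      · exact h1
    refine ⟨⟨!![0, -(v 1)⁻¹; v 1, 0], ?_⟩, ?_, ?_⟩
    · rw [Matrix.det_fin_two_of]; field_simp; ring
    · simp [h0]
    · simp
  · refine ⟨⟨!![v 0, 0; v 1, (v 0)⁻¹], ?_⟩, ?_, ?_⟩
    · rw [Matrix.det_fin_two_of]; field_simp; ring
    · simp
    · simp

/-- a `p`-subgroup fixes a nonzero vector -/
theorem exists_fix [Finite F] (p f : ℕ) (hp : p.Prime) (hf : 1 ≤ f) (hq : Nat.card F = p ^ f)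
    (W : Subgroup (SL F)) (hW : ∃ r : ℕ, Nat.card W = p ^ r) :
    ∃ v : Fin 2 → F, v ≠ 0 ∧ ∀ w ∈ W, w.1 *ᵥ v = v := by
  haveI : Fact p.Prime := ⟨hp⟩
  have hG : IsPGroup p W := IsPGroup.iff_card.2 hW
  letI act : MulAction W (Fin 2 → F) :=
    { smul := fun w v => w.1.1 *ᵥ v
      one_smul := fun v => by
        show (1 : Matrix (Fin 2) (Fin 2) F) *ᵥ v = v
        exact Matrix.one_mulVec v
      mul_smul := fun a b v => by
        show (a.1.1 * b.1.1) *ᵥ v = a.1.1 *ᵥ (b.1.1 *ᵥ v)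
        rw [Matrix.mulVec_mulVec] }
  have hdvd : p ∣ Nat.card (Fin 2 → F) := by
    rw [Nat.card_fun, hq, Nat.card_fin]
    exact dvd_pow (dvd_pow_self p (by omega)) (by norm_num)
  have h0 : (0 : Fin 2 → F) ∈ MulAction.fixedPoints W (Fin 2 → F) := by
    intro w
    show w.1.1 *ᵥ (0 : Fin 2 → F) = 0
    exact Matrix.mulVec_zero _
  obtain ⟨v, hv, hne⟩ := hG.exists_fixed_point_of_prime_dvd_card_of_fixed_point (Fin 2 → F) hdvd h0
  exact ⟨v, fun h => hne h.symm, fun w hw => hv ⟨w, hw⟩⟩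

end Slw44

open Slw44

theorem slw_thm : S_SLW := by
  intro p F _ _ f q hp hf hq hcard W I n hWI hWne hW hnorm hpn hIn
  haveI : Fact p.Prime := ⟨hp⟩
  have hcF : Nat.card F = p ^ f := by rw [hcard, hq]
  haveI hchar : CharP F p := by
    haveI := Fintype.ofFinite F
    rw [Nat.card_eq_fintype_card] at hcF
    exact charP_of_card_eq_prime_pow hcF
  obtain ⟨v, hv, hfix⟩ := exists_fix p f hp hf hcF W hW
  obtain ⟨h, hh0, hh1⟩ := exists_col v hv
  -- conjugation
  set A : SL F ≃* SL F := MulAut.conj h⁻¹ with hA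
  have hAapp : ∀ g, h * A g = g * h := by
    intro g
    rw [hA, MulAut.conj_apply]
    group
  -- elements of `W`
  have hWcol : ∀ w ∈ W, (A w).1 0 0 = 1 ∧ (A w).1 1 0 = 0 := by
    intro w hw
    have h1 := hfix w hw
    have e0 : w.1 0 0 * v 0 + w.1 0 1 * v 1 = v 0 := by
      have := congrFun h1 0
      simpa [Matrix.mulVec, dotProduct, Fin.sum_univ_two] using this
    have e1 : w.1 1 0 * v 0 + w.1 1 1 * v 1 = v 1 := by
      have := congrFun h1 1
      simpa [Matrix.mulVec, dotProduct, Fin.sum_univ_two] using this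
    have k0 : h.1 0 0 * (A w).1 0 0 + h.1 0 1 * (A w).1 1 0 = v 0 := by
      rw [← mul00, hAapp, mul00, hh0, hh1, e0]
    have k1 : h.1 1 0 * (A w).1 0 0 + h.1 1 1 * (A w).1 1 0 = v 1 := by
      rw [← mul10, hAapp, mul10, hh0, hh1, e1]
    have hd := det2 h
    rw [hh0] at hd k0
    rw [hh1] at hd k1
    constructor
    · linear_combination h.1 1 1 * k0 - h.1 0 1 * k1 + (1 - (A w).1 0 0) * hd
    · linear_combination v 0 * k1 - v 1 * k0 - (A w).1 1 0 * hd
  have hWdiag : ∀ w ∈ W, (A w).1 1 1 = 1 := by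
    intro w hw
    have hd := det2 (A w)
    obtain ⟨c0, c1⟩ := hWcol w hw
    rw [c0, c1] at hd
    linear_combination hd
  -- a nontrivial element of `W`
  obtain ⟨w0, hw0, hw01⟩ : ∃ w ∈ W, w ≠ 1 := by
    by_contra hcon
    push Not at hcon
    exact hWne ((Subgroup.eq_bot_iff_forall W).2 hcon)
  have hβ : (A w0).1 0 1 ≠ 0 := by
    intro hz
    apply hw01
    have : A w0 = 1 := by
      obtain ⟨c0, c1⟩ := hWcol w0 hw0
      exact ext2 c0 hz c1 (hWdiag w0 hw0)
    exact (MulEquiv.map_eq_one_iff A).1 this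
  -- elements of `I`
  have hI10 : ∀ g ∈ I, (A g).1 1 0 = 0 := by
    intro g hg
    have hu : g⁻¹ * w0 * g⁻¹⁻¹ ∈ W := hnorm g⁻¹ (I.inv_mem hg) w0 hw0
    obtain ⟨c0, c1⟩ := hWcol _ hu
    obtain ⟨d0, d1⟩ := hWcol w0 hw0
    have e : A w0 * A g = A g * A (g⁻¹ * w0 * g⁻¹⁻¹) := by
      rw [← map_mul, ← map_mul]
      congr 1
      group
    have e0 : (A w0 * A g).1 0 0 = (A g * A (g⁻¹ * w0 * g⁻¹⁻¹)).1 0 0 := by rw [e]
    rw [mul00, mul00, c0, c1, d0] at e0
    have : (A w0).1 0 1 * (A g).1 1 0 = 0 := by linear_combination e0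
    exact (mul_eq_zero.1 this).resolve_left hβ
  have hI11 : ∀ g ∈ I, (A g).1 0 0 * (A g).1 1 1 = 1 := by
    intro g hg
    have hd := det2 (A g)
    rw [hI10 g hg] at hd
    linear_combination hd
  let χ0 : I →* F :=
    { toFun := fun g => (A g.1).1 0 0
      map_one' := by
        show (A ((1 : I) : SL F)).1 0 0 = 1
        rw [Subgroup.coe_one, map_one]
        rfl
      map_mul' := fun a b => by
        show (A ((a * b : I) : SL F)).1 0 0 = (A a.1).1 0 0 * (A b.1).1 0 0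
        rw [Subgroup.coe_mul, map_mul, mul00, hI10 _ b.2]
        ring }
  let χ : I →* Fˣ := χ0.toHomUnits
  have hχ : ∀ g : I, ((χ g : Fˣ) : F) = (A g.1).1 0 0 := fun g => rfl
  have hker : ∀ g : I, χ g = 1 → (A g.1).1 0 0 = 1 ∧ (A g.1).1 1 1 = 1 := by
    intro g hg
    have h1 : (A g.1).1 0 0 = 1 := by rw [← hχ, hg]; rfl
    have h2 := hI11 g.1 g.2
    rw [h1, one_mul] at h2
    exact ⟨h1, h2⟩
  have hWker : W.subgroupOf I ≤ χ.ker := by
    intro g hg
    rw [MonoidHom.mem_ker]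
    apply Units.ext
    rw [hχ]
    exact (hWcol g.1 (Subgroup.mem_subgroupOf.1 hg)).1
  have hkp : IsPGroup p χ.ker := by
    intro g
    refine ⟨1, ?_⟩
    have hg := MonoidHom.mem_ker.1 g.2
    obtain ⟨a0, a1⟩ := hker g.1 hg
    obtain ⟨b0, b1, b2, b3⟩ := pow_tri (A g.1.1) 1 a0 a1 (hI10 _ g.1.2) p
    have hz : ((A g.1.1) ^ p).1 0 1 = 0 := by
      rw [CharP.cast_eq_zero F p] at b3
      linear_combination b3
    have : (A g.1.1) ^ p = 1 := by
      refine ext2 ?_ hz b2 ?_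
      · rw [b0, one_pow]; rfl
      · rw [b1, one_pow]; rfl
    rw [← map_pow, MulEquiv.map_eq_one_iff] at this
    apply Subtype.ext
    apply Subtype.ext
    rw [pow_one]
    exact this
  obtain ⟨a, ha⟩ := IsPGroup.iff_card.1 hkp
  obtain ⟨r, hr⟩ := hW
  have hWc : Nat.card (W.subgroupOf I) = Nat.card W :=
    Nat.card_congr (Subgroup.subgroupOfEquivOfLe hWI).toEquiv
  have hdvdW : p ^ r ∣ p ^ a := by
    rw [← hr, ← ha, ← hWc]
    exact Subgroup.card_dvd_of_le hWker
  have hra : r ≤ a := (Nat.pow_dvd_pow_iff_le_right hp.one_lt).1 hdvdW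
  have hcu : Nat.card Fˣ = q - 1 := by rw [Nat.card_units, hcard]
  have hrange : Nat.card χ.range ∣ q - 1 := by
    rw [← hcu]
    exact Subgroup.card_subgroup_dvd_card _
  have hcount : Nat.card I = Nat.card χ.range * p ^ a := by
    rw [← ha, ← Subgroup.index_ker, mul_comm, Subgroup.card_mul_index]
  have hn : n = Nat.card χ.range := by
    have h1 : n * p ^ r = Nat.card χ.range * p ^ a := by rw [← hr, ← hIn, hcount]
    obtain ⟨e, rfl⟩ := Nat.exists_eq_add_of_le hra
    have h2 : n = Nat.card χ.range * p ^ e := by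
      have hpos : 0 < p ^ r := pow_pos hp.pos r
      apply Nat.eq_of_mul_eq_mul_right hpos
      rw [h1, pow_add]
      ring
    rcases Nat.eq_zero_or_pos e with he | he
    · rw [h2, he, pow_zero, mul_one]
    · exact absurd (h2 ▸ Dvd.dvd.mul_left (dvd_pow_self p (by omega)) _) hpn
  refine ⟨⟨?_, ?_⟩, hn ▸ hrange, ?_⟩
  · intro w hw
    have hWk : χ ⟨w, hWI hw⟩ = 1 := hWker (Subgroup.mem_subgroupOf.2 hw)
    obtain ⟨a0, a1⟩ := hker ⟨w, hWI hw⟩ hWk
    obtain ⟨b0, b1, b2, b3⟩ := pow_tri (A w) 1 a0 a1 (hI10 _ (hWI hw)) p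
    have hz : ((A w) ^ p).1 0 1 = 0 := by
      rw [CharP.cast_eq_zero F p] at b3
      linear_combination b3
    have : (A w) ^ p = 1 := by
      refine ext2 ?_ hz b2 ?_
      · rw [b0, one_pow]; rfl
      · rw [b1, one_pow]; rfl
    rwa [← map_pow, MulEquiv.map_eq_one_iff] at this
  · intro w hw u hu
    apply A.injective
    obtain ⟨c0, c1⟩ := hWcol w hw
    obtain ⟨d0, d1⟩ := hWcol u hu
    have c2 := hWdiag w hw
    have d2 := hWdiag u hu
    rw [map_mul, map_mul]
    apply ext2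
    · rw [mul00, mul00, c0, c1, d0, d1]; ring
    · rw [mul01, mul01, c0, d0, c2, d2]; ring
    · rw [mul10, mul10, c0, c1, d0, d1]; ring
    · rw [mul11, mul11, c1, d1, c2, d2]; ring
  · intro hp2
    rcases Nat.even_or_odd n with hev | hodd
    · right
      have h2 : 2 ∣ Nat.card χ.range := hn ▸ hev.two_dvd
      obtain ⟨x, hx⟩ := exists_prime_orderOf_dvd_card' 2 h2
      have hx2 : x ^ 2 = 1 := orderOf_dvd_iff_pow_eq_one.1 (dvd_of_eq hx)
      have hx1 : x ≠ 1 := by
        intro h1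
        rw [h1, orderOf_one] at hx
        omega
      obtain ⟨g, hg⟩ := x.2
      have hF : ((x.1 : Fˣ) : F) ^ 2 = 1 := by
        have := congrArg (fun y : χ.range => ((y.1 : Fˣ) : F)) hx2
        simpa using this
      have hF1 : ((x.1 : Fˣ) : F) ≠ 1 := by
        intro h1
        apply hx1
        apply Subtype.ext
        apply Units.ext
        exact h1
      have hFm : ((x.1 : Fˣ) : F) = -1 := by
        have : (((x.1 : Fˣ) : F) - 1) * (((x.1 : Fˣ) : F) + 1) = 0 := by linear_combination hF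
        rcases mul_eq_zero.1 this with h1 | h1
        · exact absurd (sub_eq_zero.1 h1) hF1
        · exact eq_neg_of_add_eq_zero_left h1
      have hA0 : (A g.1).1 0 0 = -1 := by rw [← hχ, hg, hFm]
      have hA1 : (A g.1).1 1 1 = -1 := by
        have := hI11 g.1 g.2
        rw [hA0] at this
        linear_combination -this
      obtain ⟨b0, b1, b2, b3⟩ := pow_tri (A g.1) (-1) hA0 hA1 (hI10 _ g.2) p
      have hodd' : (-1 : F) ^ p = -1 := (hp.odd_of_ne_two hp2).neg_one_pow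
      rw [hodd'] at b0 b1
      have hz : ((A g.1) ^ p).1 0 1 = 0 := by
        rw [CharP.cast_eq_zero F p] at b3
        linear_combination -b3
      rw [← map_pow] at b0 b1 b2 hz
      refine ⟨g.1 ^ p, I.pow_mem g.2 p, ?_, ?_, ?_⟩
      · apply A.injective
        rw [pow_two, map_mul, map_one]
        apply ext2
        · rw [mul00, b0, b2, hz, one00]; ring
        · rw [mul01, b0, b1, hz, one01]; ring
        · rw [mul10, b0, b1, b2, one10]; ring
        · rw [mul11, b1, b2, hz, one11]; ring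
      · intro h1
        rw [h1, map_one, one00] at b0
        have h20 : (2 : F) = 0 := by linear_combination b0
        have h2p : p ∣ 2 := by
          rw [← CharP.cast_eq_zero_iff F p]
          exact_mod_cast h20
        exact hp2 ((Nat.prime_dvd_prime_iff_eq hp Nat.prime_two).1 h2p)
      · intro w hw
        apply A.injective
        rw [map_mul, map_mul]
        apply ext2
        · rw [mul00, mul00, b0, b2, hz]; ring
        · rw [mul01, mul01, b0, b1, hz]; ring
        · rw [mul10, mul10, b0, b1, b2]; ring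
        · rw [mul11, mul11, b1, b2, hz]; ring
    · left
      have hq1 : n ∣ q - 1 := hn ▸ hrange
      have hqodd : Odd q := hq ▸ (hp.odd_of_ne_two hp2).pow
      obtain ⟨t, ht⟩ := hqodd
      have e1 : q - 1 = 2 * t := by omega
      have e2 : (q - 1) / 2 = t := by omega
      rw [e2]
      rw [e1] at hq1
      exact (Nat.Coprime.dvd_mul_left (Nat.Coprime.symm (Nat.coprime_two_left.2 hodd))).1 hq1

end Pool.CND
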